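import Mathlib
import Pool.Agent.H12.NetTree

set_option autoImplicit false

namespace Pool.Agent.Results.MP_f4bed7_co.TreeNets

/-- For the d-regular tree (d at least 3), every k at least 1 and every k-net S, the edge Cheeger
constant of the k-net graph on S is at least (d-1)^(floor(k/2)+1) - 1. -/
theorem result (V : Type) (G : SimpleGraph V) (d : ℕ) (hd : 3 ≤ d) (hT : G.IsTree)
    (hreg : ∀ v : V, (G.neighborSet v).ncard = d) (k : ℕ) (hk : 1 ≤ k) (S : Set V)
    (hS : Maximal (fun T : Set V => ∀ u ∈ T, ∀ v ∈ T, u ≠ v → k ≤ G.dist u v) S) :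
    ((d : ℝ) - 1) ^ (k / 2 + 1) - 1 ≤
      sInf {r : ℝ | ∃ A : Finset V, A.Nonempty ∧ (↑A : Set V) ⊆ S ∧
        r = (Set.ncard {p : V × V | p.1 ∈ A ∧ p.2 ∈ S ∧ p.2 ∉ A ∧
              G.dist p.1 p.2 ≤ 2 * k} : ℝ) / (A.card : ℝ)} := by
  have hsep := hS.1
  have hcov : ∀ w, ∃ u ∈ S, G.dist w u < k := by
    intro w
    by_contra hn
    push Not at hn
    have h1 : insert w S ⊆ S := by
      apply hS.2 _ (Set.subset_insert w S)
      intro u hu v hv huv
      rcases hu with rfl | hu
      · rcases hv with rfl | hv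
        · exact absurd rfl huv
        · exact hn v hv
      · rcases hv with rfl | hv
        · rw [SimpleGraph.dist_comm]; exact hn u hu
        · exact hsep u hu v hv huv
    have := hn w (h1 (Set.mem_insert w S))
    simp at this
    omega
  apply le_csInf
  · obtain ⟨w⟩ := hT.connected.nonempty
    obtain ⟨u, hu, _⟩ := hcov w
    exact ⟨_, {u}, by simp, by simpa using hu, rfl⟩
  · rintro r ⟨A, hA, hAS, rfl⟩
    have h := Pool.Agent.H12.NetTree.boundary_bound hT hreg (by omega) hk hsep hcov A hAS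
    have hpos : (0 : ℝ) < A.card := by exact_mod_cast hA.card_pos
    rw [le_div_iff₀ hpos]
    have h' : ((A.card * (d - 1) ^ (k / 2 + 1) : ℕ) : ℝ) ≤ _ := Nat.cast_le.2 h
    push_cast [Nat.cast_sub (show 1 ≤ d by omega)] at h'
    linarith

end Pool.Agent.Results.MP_f4bed7_co.TreeNets
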